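import Pool.Agent.H79.BN.Targets

/-!
# Non-separation (`MP_009700_an`): strictly convex polygons are tables
-/

set_option autoImplicit false

namespace Pool.Agent.H44.BN

open MeasureTheory Set Filter Topology Pool.Agent.H93.BL Pool.Agent.H79.BN

theorem cr_shift (e x w a : ℂ) (t : ℝ) :
    cr e (x + (t : ℂ) * (Complex.I * a) - w) = cr e (x - w) + t * cr e (Complex.I * a) := by
  unfold cr
  simp only [Complex.sub_re, Complex.sub_im, Complex.add_re, Complex.add_im, Complex.mul_re,
    Complex.mul_im, Complex.ofReal_re, Complex.ofReal_im, Complex.I_re, Complex.I_im]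
  ring

theorem cr_I (e : ℂ) (he : e ≠ 0) : 0 < cr e (Complex.I * e) := by
  have h : cr e (Complex.I * e) = Complex.normSq e := by
    unfold cr
    rw [Complex.normSq_apply]
    simp only [Complex.mul_re, Complex.mul_im, Complex.I_re, Complex.I_im]
    ring
  rw [h]
  exact Complex.normSq_pos.2 he

theorem ex (h0 : T_V0) (h1 : T_V1) (h3 : T_V3) (ha : T_EXA) (hb : T_EXB) : T_EX := by
  intro n _ w hn hw
  obtain ⟨hv1, -, -, -, -⟩ := h1 n w hn hw
  obtain ⟨ha1, ha2, ha3, ha4⟩ := ha n w hn hw
  have hbb := hb n w hn hw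
  have hpos : ∀ i, ∀ x ∈ openSegment ℝ (w i) (w (i + 1)), ∀ k, k ≠ i →
      0 < cr (ed w k) (x - w k) := by
    intro i x hx k hk
    obtain ⟨q1, -, q3, -, q5⟩ := h3 n w hn hw k i x (openSegment_subset_segment ℝ _ _ hx)
    rcases (q1 k).lt_or_eq with h | h
    · exact h
    · exfalso
      have hself := (h3 n w hn hw i i x (openSegment_subset_segment ℝ _ _ hx)).2.2
      rcases q5 (Ne.symm hk) h.symm with ⟨hx2, hk2⟩ | ⟨hx2, hk2⟩
      · -- `x = w k = w (i + 1)`
        have : k = i + 1 := by
          rw [hk2]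
          exact ((h0 n hn k).2.2.2.2.2.1).symm
        rw [hx2, this] at hx
        have hl := (left_mem_openSegment_iff (𝕜 := ℝ) (x := w (i + 1)) (y := w i)).1
          (by rwa [openSegment_symm] at hx)
        exact hv1 i (by unfold ed; rw [hl]; ring)
      · have hx3 : x = w i := by rw [hx2, hk2]
        rw [hx3] at hx
        have hl := (left_mem_openSegment_iff (𝕜 := ℝ) (x := w i) (y := w (i + 1))).1 hx
        exact hv1 i (by unfold ed; rw [← hl]; ring)
  have hzero : ∀ i, ∀ x ∈ openSegment ℝ (w i) (w (i + 1)), cr (ed w i) (x - w i) = 0 := by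
    intro i x hx
    exact (h3 n w hn hw i i x (openSegment_subset_segment ℝ _ _ hx)).2.1
  refine ⟨⟨Omw w, w, fun i => w (i + 1), ha1, ⟨ha3, ha2.isPreconnected⟩, ha4, ?_, hbb, ?_, ?_, ?_⟩,
    fun i => rfl, rfl⟩
  · intro i h
    apply hv1 i
    unfold ed
    rw [← h]
    ring
  · intro i x hx
    have hev : ∀ᶠ t : ℝ in 𝓝[>] (0 : ℝ), x + (t : ℂ) * (Complex.I * (w (i + 1) - w i)) ∈ Omw w := by
      have : ∀ k, ∀ᶠ t : ℝ in 𝓝[>] (0 : ℝ),
          0 < cr (ed w k) (x + (t : ℂ) * (Complex.I * (w (i + 1) - w i)) - w k) := by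
        intro k
        by_cases hk : k = i
        · subst hk
          filter_upwards [self_mem_nhdsWithin] with t ht
          rw [cr_shift, hzero k x hx, zero_add]
          exact mul_pos ht (cr_I (ed w k) (hv1 k))
        · have hc : ContinuousAt (fun t : ℝ => cr (ed w k) (x - w k) +
              t * cr (ed w k) (Complex.I * (w (i + 1) - w i))) 0 := by fun_prop
          have h5 : ∀ᶠ t in 𝓝 (0 : ℝ), 0 < cr (ed w k) (x - w k) +
              t * cr (ed w k) (Complex.I * (w (i + 1) - w i)) := by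
            refine hc.eventually (lt_mem_nhds ?_)
            simpa using hpos i x hx k hk
          filter_upwards [nhdsWithin_le_nhds h5] with t ht
          rw [cr_shift]
          exact ht
      exact eventually_all.2 this
    obtain ⟨ε, hε, h6⟩ := (mem_nhdsGT_iff_exists_Ioo_subset (a := (0 : ℝ))).1 hev
    exact ⟨ε, hε, fun t ht => h6 ht⟩
  · intro i j hij
    left
    rw [Set.disjoint_left]
    intro x hx hx2
    exact hij ((h3 n w hn hw i j x hx2).2.2.1 hx).symm
  · rintro i x hx ⟨ε, hε, h⟩
    exfalso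
    have h7 := h (ε / 2) ⟨by positivity, by linarith⟩ i
    have e : x - ((ε / 2 : ℝ) : ℂ) * (Complex.I * (w (i + 1) - w i)) - w i =
        x + ((-(ε / 2) : ℝ) : ℂ) * (Complex.I * ed w i) - w i := by
      unfold ed
      push_cast
      ring
    rw [e, cr_shift, hzero i x hx] at h7
    have h8 := cr_I (ed w i) (hv1 i)
    nlinarith

end Pool.Agent.H44.BN
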